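import Pool.Agent.helper4.NF.SpecB

/-!
# Project nf, module GAL
-/

set_option autoImplicit false

open Complex MeasureTheory

namespace Pool.Agent.NF

open Pool.Agent.helper84.DM Pool.Agent.helper78.ED Pool.Agent.DH Pool.Agent.ZD

theorem GAL_exp : Real.exp 9 ≤ 10 ^ 4 := by
  have h1 : Real.exp 9 = Real.exp 1 ^ 9 := by
    rw [← Real.exp_nat_mul]
    norm_num
  rw [h1]
  have h2 := Real.exp_one_lt_d9
  calc Real.exp 1 ^ 9 ≤ 2.7182818286 ^ 9 := pow_le_pow_left₀ (Real.exp_pos _).le h2.le 9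
    _ ≤ 10 ^ 4 := by norm_num

theorem GAL (h1 : BG1_stmt) (h2 : BGD_stmt) : GAL_stmt := by
  intro T W H H' hT hW hH hH' hi1 hi2
  have hHc : Continuous H := continuous_iff_continuousAt.2 fun x => (hH x).continuousAt
  obtain ⟨g, hg⟩ : ∃ g : ℝ → ℝ, g = fun x => 2 * ‖H x‖ ^ 2 + ‖H' x‖ ^ 2 := ⟨_, rfl⟩
  have hgx : ∀ x, g x = 2 * ‖H x‖ ^ 2 + ‖H' x‖ ^ 2 := fun x => by rw [hg]
  have hgc : Continuous g := by
    rw [hg]
    exact (continuous_const.mul (hHc.norm.pow 2)).add (hH'.norm.pow 2)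
  have hg0 : ∀ x, 0 ≤ g x := fun x => by rw [hgx]; positivity
  have hec : Continuous fun x : ℝ => Real.exp (-(x / T) ^ 2) := by fun_prop
  have hint : Integrable (fun x : ℝ => g x * Real.exp (-(x / T) ^ 2)) := by
    refine ((hi1.const_mul 2).add hi2).congr (Filter.Eventually.of_forall fun x => ?_)
    simp only [Pi.add_apply, hgx]
    ring
  have e1 : ∀ t ∈ W, ‖H t‖ ^ 2 ≤ ∫ x in (t - 1 / 2)..(t + 1 / 2), g x := by
    intro t _
    refine (h1 H H' hH hH' t (1 / 2) (by norm_num)).trans ?_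
    refine intervalIntegral.integral_mono_on (by linarith) ?_ (hgc.intervalIntegrable _ _)
      fun x _ => ?_
    · refine Continuous.intervalIntegrable ?_ _ _
      exact (continuous_const.mul (hHc.norm.pow 2)).add (continuous_const.mul (hH'.norm.pow 2))
    · rw [hgx]
      have := sq_nonneg ‖H' x‖
      norm_num
      linarith
  have e2 := h2 T W g hT hW hgc hg0
  have e3 : ∫ x in (T - 1 / 2)..(2 * T + 1 / 2), g x ≤
      ∫ x in (T - 1 / 2)..(2 * T + 1 / 2), 10 ^ 4 * (g x * Real.exp (-(x / T) ^ 2)) := by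
    refine intervalIntegral.integral_mono_on (by linarith) (hgc.intervalIntegrable _ _) ?_
      fun x hx => ?_
    · exact (continuous_const.mul (hgc.mul hec)).intervalIntegrable _ _
    · have hx1 : 0 ≤ x / T := div_nonneg (by linarith [hx.1]) (by linarith)
      have hx2 : x / T ≤ 3 := by
        rw [div_le_iff₀ (by linarith)]
        linarith [hx.2]
      have hx3 : (x / T) ^ 2 ≤ 9 := by nlinarith
      have hx4 : 1 ≤ 10 ^ 4 * Real.exp (-(x / T) ^ 2) := by
        calc (1 : ℝ) = Real.exp ((x / T) ^ 2) * Real.exp (-(x / T) ^ 2) := by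
              rw [← Real.exp_add, add_neg_cancel, Real.exp_zero]
          _ ≤ 10 ^ 4 * Real.exp (-(x / T) ^ 2) :=
              mul_le_mul_of_nonneg_right ((Real.exp_le_exp.2 hx3).trans GAL_exp) (Real.exp_pos _).le
      calc g x = g x * 1 := (mul_one _).symm
        _ ≤ g x * (10 ^ 4 * Real.exp (-(x / T) ^ 2)) := mul_le_mul_of_nonneg_left hx4 (hg0 x)
        _ = _ := by ring
  have e4 : ∫ x in (T - 1 / 2)..(2 * T + 1 / 2), 10 ^ 4 * (g x * Real.exp (-(x / T) ^ 2)) ≤
      10 ^ 4 * ∫ x : ℝ, g x * Real.exp (-(x / T) ^ 2) := by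
    rw [intervalIntegral.integral_const_mul]
    refine mul_le_mul_of_nonneg_left ?_ (by norm_num)
    rw [intervalIntegral.integral_of_le (by linarith)]
    exact setIntegral_le_integral hint
      (Filter.Eventually.of_forall fun x => mul_nonneg (hg0 x) (Real.exp_pos _).le)
  have e5 : ∑ t ∈ W, ‖H t‖ ^ 2 ≤ 10 ^ 4 * ∫ x : ℝ, g x * Real.exp (-(x / T) ^ 2) :=
    ((Finset.sum_le_sum e1).trans e2).trans (e3.trans e4)
  simpa only [hgx] using e5

end Pool.Agent.NF
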